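import Mathlib

set_option autoImplicit false

namespace Pool.Agent.H16

/-- the incidence vector of an edge -/
def xinc {ι V : Type} [DecidableEq V] (a b : ι → V) (e : ι) (v : V) : ℤ :=
  (if a e = v then 1 else 0) - (if b e = v then 1 else 0)

theorem signs_aux {ι V : Type} [DecidableEq ι] [DecidableEq V] (n : ℕ) :
    ∀ (E : Finset ι) (a b : ι → V), E.card ≤ n → ∃ σ : ι → ℤ, (∀ e, σ e = 1 ∨ σ e = -1) ∧
      ∀ v, |∑ e ∈ E, σ e * xinc a b e v| ≤ 1 := by
  induction n with
  | zero =>
    intro E a b hE
    have : E = ∅ := Finset.card_eq_zero.1 (by omega)
    subst this
    exact ⟨fun _ => 1, fun _ => Or.inl rfl, fun v => by simp⟩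
  | succ n ih =>
    intro E a b hE
    by_cases hex : ∃ e ∈ E, ∃ f ∈ E, e ≠ f ∧ ∃ (s t : ℤ) (u w : V), (s = 1 ∨ s = -1) ∧
        (t = 1 ∨ t = -1) ∧ ∀ v, s * xinc a b e v + t * xinc a b f v =
          (if u = v then 1 else 0) - (if w = v then 1 else 0)
    · obtain ⟨e, he, f, hf, hef, s, t, u, w, hs, ht, hx⟩ := hex
      have hcard : (E.erase f).card ≤ n := by
        rw [Finset.card_erase_of_mem hf]; omega
      obtain ⟨σ, h1, h2⟩ := ih (E.erase f) (Function.update a e u) (Function.update b e w) hcard
      refine ⟨Function.update (Function.update σ e (s * σ e)) f (t * σ e), ?_, ?_⟩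
      · intro g
        by_cases hgf : g = f
        · subst hgf
          rw [Function.update_self]
          rcases ht with h | h <;> rcases h1 e with h' | h' <;> rw [h, h'] <;> simp
        · rw [Function.update_of_ne hgf]
          by_cases hge : g = e
          · subst hge
            rw [Function.update_self]
            rcases hs with h | h <;> rcases h1 g with h' | h' <;> rw [h, h'] <;> simp
          · rw [Function.update_of_ne hge]
            exact h1 g
      · intro v
        have key : ∑ g ∈ E, Function.update (Function.update σ e (s * σ e)) f (t * σ e) g *
            xinc a b g v = ∑ g ∈ E.erase f, σ g *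
              xinc (Function.update a e u) (Function.update b e w) g v := by
          have he' : e ∈ E.erase f := Finset.mem_erase.2 ⟨hef, he⟩
          rw [← Finset.add_sum_erase E _ hf, ← Finset.add_sum_erase (E.erase f) _ he',
            ← Finset.add_sum_erase (E.erase f) (fun g => σ g *
              xinc (Function.update a e u) (Function.update b e w) g v) he', ← add_assoc]
          congr 1
          · have e1 : xinc (Function.update a e u) (Function.update b e w) e v =
                (if u = v then 1 else 0) - (if w = v then 1 else 0) := by
              unfold xinc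
              rw [Function.update_self, Function.update_self]
            rw [e1, ← hx v, Function.update_self, Function.update_of_ne hef,
              Function.update_self]
            ring
          · apply Finset.sum_congr rfl
            intro g hg
            have hg1 := Finset.mem_erase.1 hg
            have hg2 := Finset.mem_erase.1 hg1.2
            rw [Function.update_of_ne hg2.1, Function.update_of_ne hg1.1]
            unfold xinc
            rw [Function.update_of_ne hg1.1, Function.update_of_ne hg1.1]
        rw [key]
        exact h2 v
    · refine ⟨fun _ => 1, fun _ => Or.inl rfl, fun v => ?_⟩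
      have hbound : ∀ e, |(1 : ℤ) * xinc a b e v| ≤ 1 := by
        intro e
        unfold xinc
        rw [one_mul]
        split_ifs <;> simp
      have hzero : ∀ e, a e ≠ v → b e ≠ v → xinc a b e v = 0 := by
        intro e h1 h2
        unfold xinc
        rw [if_neg h1, if_neg h2, sub_self]
      by_cases hv : ∃ e ∈ E, a e = v ∨ b e = v
      · obtain ⟨e, he, hev⟩ := hv
        rw [Finset.sum_eq_single_of_mem e he]
        · exact hbound e
        · intro f hf hfe
          have hfv : ¬ (a f = v ∨ b f = v) := by
            intro hfv
            apply hex
            refine ⟨e, he, f, hf, hfe.symm, ?_⟩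
            rcases hev with h | h <;> rcases hfv with h' | h'
            · refine ⟨-1, 1, b e, b f, Or.inr rfl, Or.inl rfl, fun x => ?_⟩
              unfold xinc
              rw [h, h']; ring
            · refine ⟨-1, -1, b e, a f, Or.inr rfl, Or.inr rfl, fun x => ?_⟩
              unfold xinc
              rw [h, h']; ring
            · refine ⟨1, 1, a e, b f, Or.inl rfl, Or.inl rfl, fun x => ?_⟩
              unfold xinc
              rw [h, h']; ring
            · refine ⟨1, -1, a e, a f, Or.inl rfl, Or.inr rfl, fun x => ?_⟩
              unfold xinc
              rw [h, h']; ring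
          rw [hzero f (fun h => hfv (Or.inl h)) (fun h => hfv (Or.inr h)), mul_zero]
      · push Not at hv
        rw [Finset.sum_eq_zero]
        · simp
        · intro e he
          rw [hzero e (hv e he).1 (hv e he).2, mul_zero]

/-- Balanced orientation of a finite multigraph (loops allowed). -/
theorem signs {ι V : Type} [DecidableEq ι] [DecidableEq V] (E : Finset ι) (a b : ι → V) :
    ∃ σ : ι → ℤ, (∀ e, σ e = 1 ∨ σ e = -1) ∧
      ∀ v, |∑ e ∈ E, σ e * ((if a e = v then 1 else 0) - (if b e = v then 1 else 0))| ≤ 1 :=
  signs_aux E.card E a b le_rfl

end Pool.Agent.H16
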